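import Pool.Agent.W593.ZT.Stm

/-! Project ZT: monochromatic tree of depth at most two in two colours. -/

open scoped Classical

set_option autoImplicit false

namespace Pool.Agent.W397.ZT

open Pool.Agent.W593.ZT

theorem br2 : S_BR2 := by
  intro V _ c hs hne
  have h01 : ∀ a : Fin 2, a ≠ 0 → a = 1 := by decide
  have h10 : ∀ a : Fin 2, a ≠ 1 → a = 0 := by decide
  by_cases h : ∃ (x : V) (col : Fin 2), ∀ v, v ≠ x →
      c x v = col ∨ ∃ y, y ≠ x ∧ y ≠ v ∧ c x y = col ∧ c y v = col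
  · obtain ⟨x, col, h⟩ := h
    have h' : ∀ v, ∃ y, v ≠ x → c x v ≠ col → y ≠ x ∧ y ≠ v ∧ c x y = col ∧ c y v = col := by
      intro v
      by_cases hv : v ≠ x ∧ c x v ≠ col
      · rcases h v hv.1 with h1 | ⟨y, hy⟩
        · exact absurd h1 hv.2
        · exact ⟨y, fun _ _ => hy⟩
      · exact ⟨x, fun h1 h2 => absurd ⟨h1, h2⟩ hv⟩
    choose q hq using h'
    refine ⟨x, fun v => if c x v = col then x else q v, col, fun v hv => ?_⟩
    by_cases h1 : c x v = col
    · simp only [if_pos h1]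
      exact ⟨fun h2 => hv h2.symm, Or.inl trivial, by rw [hs]; exact h1⟩
    · obtain ⟨a1, a2, a3, a4⟩ := hq v hv h1
      simp only [if_neg h1]
      exact ⟨a2, Or.inr (by rw [if_pos a3]), by rw [hs]; exact a4⟩
  · push Not at h
    obtain ⟨x⟩ := hne
    obtain ⟨p, hp1, hp2, hp3⟩ := h x 0
    refine ⟨x, fun v => if c x v = 1 then x else p, 1, fun v hv => ?_⟩
    by_cases h1 : c x v = 1
    · simp only [if_pos h1]
      exact ⟨fun h2 => hv h2.symm, Or.inl trivial, by rw [hs]; exact h1⟩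
    · have hvp : v ≠ p := by
        intro h2
        rw [h2] at h1
        exact h1 (h01 _ hp2)
      simp only [if_neg h1]
      exact ⟨fun h2 => hvp h2.symm, Or.inr (by rw [if_pos (h01 _ hp2)]),
        h01 _ (hp3 v hv hvp (h10 _ h1))⟩

end Pool.Agent.W397.ZT
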